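import Mathlib

/-!
# Every fixed point of the binary min-max recursion satisfies `F (x + 2) = h (F x)`

Along `x + 2 ℤ` put `a j = F (x + 2 j)`, `b j = (Φ' F) (x + 2 j + 1)`, `δ j = b j - a (j + 1)`,
`u j = √(a j)`, `v j = (a j + a (j + 1)) / 2`. Then `δ j = (u j - v j) (u j + v j)` and
`δ (j - 1) = (u j - v j) (2 - u j - v j)`. Far to the left `u` and `v` are small, so `|δ|` at least doubles
with each step to the left; being bounded it vanishes there, and then it vanishes everywhere.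
-/

set_option autoImplicit false

open Filter Topology MeasureTheory ProbabilityTheory

namespace Pool.Agent.Results.MP_e9a5a5_pr.AllFixedPoints

/-- `(μ * F) (x) = (F (x - 1) + F (x + 1)) / 2`. -/
noncomputable def avg (F : ℝ → ℝ) (x : ℝ) : ℝ := (F (x - 1) + F (x + 1)) / 2

/-- the max step `Φ F = (μ * F) ^ 2` -/
noncomputable def Phi (F : ℝ → ℝ) (x : ℝ) : ℝ := avg F x ^ 2

/-- the min step `Φ' F = 1 - (1 - μ * F) ^ 2` -/
noncomputable def Phi' (F : ℝ → ℝ) (x : ℝ) : ℝ := 1 - (1 - avg F x) ^ 2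

/-- `Ψ = Φ ∘ Φ'` -/
noncomputable def Psi (F : ℝ → ℝ) : ℝ → ℝ := Phi (Phi' F)

/-- `h p = 2 √p - p` -/
noncomputable def h (p : ℝ) : ℝ := 2 * √p - p

/-- One line `x + 2ℤ` of the recursion. -/
theorem line (a : ℤ → ℝ) (h0 : ∀ j, 0 ≤ a j) (h1 : ∀ j, a j ≤ 1)
    (hlim : Tendsto a atBot (𝓝 0))
    (hrec : ∀ j, a j = (((1 - (1 - (a (j - 1) + a j) / 2) ^ 2)
      + (1 - (1 - (a j + a (j + 1)) / 2) ^ 2)) / 2) ^ 2) (j : ℤ) :
    a (j + 1) = 2 * √(a j) - a j := by
  set u : ℤ → ℝ := fun j => √(a j) with hu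
  set v : ℤ → ℝ := fun j => (a j + a (j + 1)) / 2 with hv
  set b : ℤ → ℝ := fun j => 1 - (1 - v j) ^ 2 with hb
  set d : ℤ → ℝ := fun j => b j - a (j + 1) with hd
  have hu2 : ∀ j, u j ^ 2 = a j := fun j => Real.sq_sqrt (h0 j)
  have hu0 : ∀ j, 0 ≤ u j := fun j => Real.sqrt_nonneg _
  have hu1 : ∀ j, u j ≤ 1 := fun j => Real.sqrt_le_one.2 (h1 j)
  have hv0 : ∀ j, 0 ≤ v j := fun j => by simp only [hv]; linarith [h0 j, h0 (j + 1)]
  have hv1 : ∀ j, v j ≤ 1 := fun j => by simp only [hv]; linarith [h1 j, h1 (j + 1)]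
  have hb0 : ∀ j, 0 ≤ b j := fun j => by simp only [hb]; nlinarith [hv0 j, hv1 j]
  have hb1 : ∀ j, b j ≤ 1 := fun j => by simp only [hb]; nlinarith [sq_nonneg (1 - v j)]
  have hbb : ∀ j, b (j - 1) + b j = 2 * u j := by
    intro j
    have e : a j = ((b (j - 1) + b j) / 2) ^ 2 := by
      have := hrec j
      simp only [hb, hv, sub_add_cancel]
      exact this
    have : u j = (b (j - 1) + b j) / 2 := by
      simp only [hu]
      rw [e, Real.sqrt_sq (by linarith [hb0 (j - 1), hb0 j])]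
    linarith
  have hd1 : ∀ j, d j = (u j - v j) * (u j + v j) := by
    intro j
    have : a (j + 1) = 2 * v j - a j := by simp only [hv]; ring
    simp only [hd, hb]
    rw [this, ← hu2 j]; ring
  have hd2 : ∀ j, d (j - 1) = (u j - v j) * (2 - u j - v j) := by
    intro j
    have e1 : d (j - 1) = b (j - 1) - a j := by simp only [hd, sub_add_cancel]
    rw [e1, ← hu2 j]
    have := hbb j
    have e2 : b j = 1 - (1 - v j) ^ 2 := rfl
    nlinarith
  have hdabs : ∀ j, |d j| ≤ 1 := by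
    intro j
    rw [abs_le]
    constructor <;> simp only [hd] <;> linarith [hb0 j, hb1 j, h0 (j + 1), h1 (j + 1)]
  -- far to the left
  obtain ⟨J, hJ⟩ : ∃ J : ℤ, ∀ j ≤ J, a j ≤ 1 / 9 := by
    have := hlim.eventually (ge_mem_nhds (show (0 : ℝ) < 1 / 9 by norm_num))
    exact eventually_atBot.1 this
  have hsmall : ∀ j : ℤ, j ≤ J - 1 → 2 * |d j| ≤ |d (j - 1)| := by
    intro j hj
    have ha1 := hJ j (by omega)
    have ha2 := hJ (j + 1) (by omega)
    have hu3 : u j ≤ 1 / 3 := by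
      have : u j ^ 2 ≤ (1 / 3) ^ 2 := by rw [hu2]; linarith
      exact le_of_sq_le_sq this (by norm_num) 
    have hv3 : v j ≤ 1 / 3 := by simp only [hv]; linarith
    rw [hd1 j, hd2 j, abs_mul, abs_mul, abs_of_nonneg (show 0 ≤ u j + v j by linarith [hu0 j, hv0 j]),
      abs_of_nonneg (show 0 ≤ 2 - u j - v j by linarith)]
    nlinarith [abs_nonneg (u j - v j)]
  have hgrow : ∀ (n : ℕ) (j : ℤ), j ≤ J - 1 → 2 ^ n * |d j| ≤ |d (j - n)| := by
    intro n
    induction n with
    | zero => intro j _; simp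
    | succ n ih =>
      intro j hj
      have e1 := ih (j - 1) (by omega)
      have e2 := hsmall j hj
      have e3 : j - 1 - (n : ℤ) = j - ((n + 1 : ℕ) : ℤ) := by push_cast; ring
      rw [e3] at e1
      have : (0 : ℝ) < 2 ^ n := by positivity
      rw [pow_succ]
      nlinarith
  have hleft : ∀ j : ℤ, j ≤ J - 1 → d j = 0 := by
    intro j hj
    by_contra hne
    have hpos : 0 < |d j| := abs_pos.2 hne
    obtain ⟨n, hn⟩ := pow_unbounded_of_one_lt (1 / |d j|) (one_lt_two)
    have h1 := hgrow n j hj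
    have h2 := hdabs (j - n)
    rw [div_lt_iff₀ hpos] at hn
    linarith
  have hstep : ∀ j : ℤ, d (j - 1) = 0 → d j = 0 := by
    intro j hj
    rw [hd2 j] at hj
    rw [hd1 j]
    rcases mul_eq_zero.1 hj with h | h
    · rw [h, zero_mul]
    · have : u j = v j := by linarith [hu1 j, hv1 j]
      rw [this, sub_self, zero_mul]
  have hall : ∀ (n : ℕ), d (J - 1 + n) = 0 := by
    intro n
    induction n with
    | zero => exact hleft _ (by simp)
    | succ n ih =>
      have e : J - 1 + ((n + 1 : ℕ) : ℤ) - 1 = J - 1 + n := by push_cast; ring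
      refine hstep _ ?_
      rw [e]; exact ih
  have hzero : d j = 0 := by
    rcases le_or_gt j (J - 1) with hj | hj
    · exact hleft j hj
    · have := hall (j - (J - 1)).toNat
      rwa [Int.toNat_of_nonneg (by omega), add_sub_cancel] at this
  have huv : u j = v j := by
    rw [hd1 j] at hzero
    rcases mul_eq_zero.1 hzero with h | h
    · linarith
    · linarith [hu0 j, hv0 j]
  have : v j = (a j + a (j + 1)) / 2 := rfl
  have hu' : √(a j) = u j := rfl
  rw [hu']
  linarith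

/-- Every fixed point `F` of `Ψ` that is the distribution function of a probability measure on `ℝ`
satisfies `F (x + 2) = h (F x)` for all real `x`. -/
theorem result (μ : Measure ℝ) [IsProbabilityMeasure μ] (hfix : Psi (cdf μ) = cdf μ) (x : ℝ) :
    cdf μ (x + 2) = h (cdf μ x) := by
  have key := line (fun j : ℤ => cdf μ (x + 2 * j)) (fun j => cdf_nonneg μ _)
    (fun j => cdf_le_one μ _) ?_ ?_ 0
  · simpa [h] using key
  · refine (tendsto_cdf_atBot μ).comp ?_
    refine tendsto_atBot_add_const_left _ _ ?_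
    exact (tendsto_intCast_atBot_iff.2 tendsto_id).const_mul_atBot (by norm_num)
  · intro j
    have h1 := congrFun hfix (x + 2 * j)
    refine h1.symm.trans ?_
    simp only [Psi, Phi, Phi', avg]
    push_cast
    have e1 : x + 2 * (j : ℝ) - 1 - 1 = x + 2 * ((j : ℝ) - 1) := by ring
    have e2 : x + 2 * (j : ℝ) - 1 + 1 = x + 2 * (j : ℝ) := by ring
    have e3 : x + 2 * (j : ℝ) + 1 - 1 = x + 2 * (j : ℝ) := by ring
    have e4 : x + 2 * (j : ℝ) + 1 + 1 = x + 2 * ((j : ℝ) + 1) := by ring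
    rw [e1, e2, e3, e4]

end Pool.Agent.Results.MP_e9a5a5_pr.AllFixedPoints
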